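import Pool.Agent.H54.WB.TargetsA

set_option autoImplicit false

namespace Pool.Agent.H94.WB

open Pool.Agent.H54.WB

theorem tw_shift (k x : ℕ) : Tw (k + 1) x = Tw k (2 ^ x) := by
  induction k with
  | zero => rfl
  | succ k ih =>
    show 2 ^ Tw (k + 1) x = 2 ^ Tw k (2 ^ x)
    rw [ih]

theorem le_ilog (k : ℕ) : ∀ m n : ℕ, Tw k m ≤ n → m ≤ ilog k n := by
  induction k with
  | zero => exact fun m n h => h
  | succ k ih =>
    intro m n h
    have h1 : Tw k m ≤ Nat.log 2 n := Nat.le_log_of_pow_le one_lt_two h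
    exact ih m _ h1

theorem pf_LGT (hDDU : T_DDU) : T_LGT := by
  intro k
  obtain ⟨-, h2, h3, -⟩ := hDDU
  refine ⟨Tw (k + 1) (k + 3) + 1, fun K hK => ?_⟩
  have h0 : Tw (k + 1) 0 < K := lt_of_le_of_lt (h3 (k + 1) 0 (k + 3) (Nat.zero_le _)) (by omega)
  obtain ⟨hd0, hd1, hd2⟩ := h2 (k + 1) K h0
  set d := dd (k + 1) K with hd
  have hd3 : k + 4 ≤ d := by
    by_contra hlt
    have := h3 (k + 1) d (k + 3) (by omega)
    omega
  have hKg : K ≤ gT (k + 1) K := by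
    unfold gT
    have h4 : K ≤ K * K := Nat.le_mul_self K
    have h5 : K * K ≤ K * K * (1 + 2 * sz (dd (k + 1) K) (k + 1)) := Nat.le_mul_of_pos_right _ (by omega)
    omega
  have h6 : 2 ^ (d - 1) ≤ ilog k (gT (k + 1) K) := by
    apply le_ilog
    rw [← tw_shift]
    omega
  refine le_trans ?_ h6
  obtain ⟨m, hm⟩ : ∃ m, d = m + 2 := ⟨d - 2, by omega⟩
  have h7 : m < 2 ^ m := Nat.lt_two_pow_self
  have h8 : 2 ^ (d - 1) = 2 * 2 ^ m := by
    rw [hm, show m + 2 - 1 = m + 1 from rfl, pow_succ, mul_comm]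
  rw [h8]
  omega

end Pool.Agent.H94.WB
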